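import Pool.Agent.Work.MP_59976d_co_even.Interface
import Pool.Agent.Work.MP_59976d_co_odd.Basic

/-!
Block H6: sums of two pairs of neighbouring fibres.
-/

namespace Pool.Agent.Work.MP_59976d_co

open Finset
open scoped Pointwise

universe u

namespace H6

variable {G : Type u} [AddCommGroup G]

lemma zero_of_two_torsion (L : AddSubgroup G) (hL : (Nat.card L).Prime) (h2 : Nat.card L ≠ 2)
    {l : G} (hl : l ∈ L) (h : l + l = 0) : l = 0 := by
  have h1 : addOrderOf (⟨l, hl⟩ : L) ∣ Nat.card L := addOrderOf_dvd_natCard _
  have h3 : addOrderOf (⟨l, hl⟩ : L) ∣ 2 := by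
    rw [addOrderOf_dvd_iff_nsmul_eq_zero, two_nsmul]
    exact Subtype.ext h
  have h4 : addOrderOf (⟨l, hl⟩ : L) ∣ 1 := by
    have hco : Nat.Coprime (Nat.card L) 2 := by
      rw [Nat.coprime_primes hL Nat.prime_two]
      exact h2
    have := Nat.dvd_gcd h1 h3
    rwa [hco] at this
  have h5 : addOrderOf (⟨l, hl⟩ : L) = 1 := Nat.dvd_one.1 h4
  rw [AddMonoid.addOrderOf_eq_one_iff] at h5
  exact congrArg Subtype.val h5

lemma le_of_mem (L K : AddSubgroup G) (hL : (Nat.card L).Prime) {k : G} (hk : k ∈ L)
    (hkK : k ∈ K) (h0 : k ≠ 0) : L ≤ K := by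
  have : Fact (Nat.card L).Prime := ⟨hL⟩
  intro l hl
  have h1 : (⟨l, hl⟩ : L) ∈ AddSubgroup.zmultiples (⟨k, hk⟩ : L) :=
    mem_zmultiples_of_prime_card (p := Nat.card L) rfl (fun h => h0 (congrArg Subtype.val h))
  obtain ⟨n, hn⟩ := h1
  have h2 : n • k = l := congrArg Subtype.val hn
  rw [← h2]
  exact K.zsmul_mem hkK n

end H6

theorem stmt_H6 (hK : Stmt_Kneser.{u}) : Stmt_H6.{u} := by
  intro G _ _ _ L hL hL2 σ hσ0 hσ X Y i j a b hX hY ha hb hab hX1 hX2 hY1 hY2
  classical
  set s : G ⧸ L := QuotientAddGroup.mk σ with hs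
  have hσL : σ ∉ L := fun h => hσ0 (H6.zero_of_two_torsion L hL hL2 h hσ)
  have hs0 : s ≠ 0 := by
    intro h
    exact hσL ((QuotientAddGroup.eq_zero_iff σ).1 h)
  have hss : s + s = 0 := by
    rw [hs, ← QuotientAddGroup.mk_add, hσ, QuotientAddGroup.mk_zero]
  set X' := part L X i ∪ part L X (i + s) with hX'
  set Y' := part L Y j ∪ part L Y (j + s) with hY'
  have disj : ∀ (S : Finset G) (k : G ⧸ L), Disjoint (part L S k) (part L S (k + s)) := by
    intro S k
    rw [Finset.disjoint_left]
    intro x hx hx'
    rw [mem_part] at hx hx'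
    apply hs0
    have := hx.2.symm.trans hx'.2
    exact (left_eq_add.1 this)
  have cX : 2 * a ≤ X'.card := by
    rw [hX', card_union_of_disjoint (disj X i)]; omega
  have cY : 2 * b ≤ Y'.card := by
    rw [hY', card_union_of_disjoint (disj Y j)]; omega
  have mX : ∀ x ∈ X', x ∈ X ∧ ((QuotientAddGroup.mk x : G ⧸ L) = i ∨
      (QuotientAddGroup.mk x : G ⧸ L) = i + s) := by
    intro x hx
    rw [hX', mem_union, mem_part, mem_part] at hx
    tauto
  have mY : ∀ x ∈ Y', x ∈ Y ∧ ((QuotientAddGroup.mk x : G ⧸ L) = j ∨
      (QuotientAddGroup.mk x : G ⧸ L) = j + s) := by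
    intro x hx
    rw [hY', mem_union, mem_part, mem_part] at hx
    tauto
  have hXne : X'.Nonempty := card_pos.1 (by omega)
  have hYne : Y'.Nonempty := card_pos.1 (by omega)
  set Z := X' + Y' with hZ
  have mZ : ∀ z ∈ Z, z ∈ X + Y ∧ ((QuotientAddGroup.mk z : G ⧸ L) = i + j ∨
      (QuotientAddGroup.mk z : G ⧸ L) = i + j + s) := by
    intro z hz
    rw [hZ, mem_add] at hz
    obtain ⟨x, hx, y, hy, rfl⟩ := hz
    obtain ⟨hx1, hx2⟩ := mX x hx
    obtain ⟨hy1, hy2⟩ := mY y hy
    refine ⟨add_mem_add hx1 hy1, ?_⟩
    rw [QuotientAddGroup.mk_add]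
    rcases hx2 with h1 | h1 <;> rcases hy2 with h2 | h2 <;> rw [h1, h2]
    · left; rfl
    · right; abel
    · right; abel
    · left
      rw [show i + s + (j + s) = i + j + (s + s) by abel, hss, add_zero]
  have cZ : Z.card ≤ (part L (X + Y) (i + j)).card + (part L (X + Y) (i + j + s)).card := by
    rw [← card_union_of_disjoint (disj (X + Y) (i + j))]
    apply card_le_card
    intro z hz
    obtain ⟨h1, h2⟩ := mZ z hz
    rw [mem_union, mem_part, mem_part]
    tauto
  obtain ⟨K, hst, hKc⟩ := hK G X' Y' hXne hYne
  rw [← hZ] at hst hKc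
  by_cases hLK : L ≤ K
  · -- full cosets
    left
    obtain ⟨x, hx⟩ := card_pos.1 (show 0 < (part L X i).card by omega)
    obtain ⟨y, hy⟩ := card_pos.1 (show 0 < (part L Y j).card by omega)
    have hxy : x + y ∈ part L Z (i + j) := by
      rw [mem_part]
      refine ⟨add_mem_add (mem_union_left _ hx) (mem_union_left _ hy), ?_⟩
      rw [QuotientAddGroup.mk_add, (mem_part.1 hx).2, (mem_part.1 hy).2]
    have hdvd : Nat.card L ∣ (part L Z (i + j)).card := by
      apply card_dvd_of_periodic
      intro l hl z hz
      rw [mem_part] at hz ⊢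
      refine ⟨(hst l).1 (hLK hl) z hz.1, ?_⟩
      rw [QuotientAddGroup.mk_add, (QuotientAddGroup.eq_zero_iff l).2 hl, zero_add, hz.2]
    have h1 : Nat.card L ≤ (part L Z (i + j)).card :=
      Nat.le_of_dvd (card_pos.2 ⟨_, hxy⟩) hdvd
    have h2 : (part L Z (i + j)).card ≤ (part L (X + Y) (i + j)).card := by
      apply card_part_mono
      intro z hz
      exact (mZ z hz).1
    omega
  · -- small stabiliser
    have hKσ : ∀ k ∈ K, k = 0 ∨ k = σ := by
      intro k hk
      obtain ⟨z, hz⟩ : Z.Nonempty := hXne.add hYne
      have h1 := (mZ z hz).2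
      have h2 := (mZ _ ((hst k).1 hk z hz)).2
      rw [QuotientAddGroup.mk_add] at h2
      have h3 : (QuotientAddGroup.mk k : G ⧸ L) = 0 ∨ (QuotientAddGroup.mk k : G ⧸ L) = s := by
        rcases h1 with h1 | h1 <;> rcases h2 with h2 | h2 <;> rw [h1] at h2
        · left; exact add_eq_right.1 h2
        · right
          rw [add_comm (i + j) s] at h2
          exact add_right_cancel h2
        · right
          have : (QuotientAddGroup.mk k : G ⧸ L) + s + (i + j) = i + j := by
            calc (QuotientAddGroup.mk k : G ⧸ L) + s + (i + j)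
                = (QuotientAddGroup.mk k : G ⧸ L) + (i + j + s) := by abel
              _ = i + j := h2
          have h4 : (QuotientAddGroup.mk k : G ⧸ L) + s = 0 := add_eq_right.1 this
          calc (QuotientAddGroup.mk k : G ⧸ L) = (QuotientAddGroup.mk k : G ⧸ L) + s + s := by
                rw [add_assoc, hss, add_zero]
            _ = s := by rw [h4, zero_add]
        · left; exact add_eq_right.1 h2
      rcases h3 with h3 | h3
      · left
        by_contra h0
        exact hLK (H6.le_of_mem L K hL ((QuotientAddGroup.eq_zero_iff k).1 h3) hk h0)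
      · right
        have h4 : k - σ ∈ L := by
          rw [← QuotientAddGroup.eq_zero_iff, QuotientAddGroup.mk_sub, h3, ← hs, sub_self]
        have h5 : k + k = (k - σ) + (k - σ) := by
          calc k + k = (k - σ) + (k - σ) + (σ + σ) := by abel
            _ = _ := by rw [hσ, add_zero]
        have h6 : k + k = 0 := by
          by_contra h0
          exact hLK (H6.le_of_mem L K hL (by rw [h5]; exact L.add_mem h4 h4)
            (K.add_mem hk hk) h0)
        rw [h5] at h6
        exact sub_eq_zero.1 (H6.zero_of_two_torsion L hL hL2 h4 h6)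
    have hfin : 2 * (a + b) ≤ Z.card + 1 := by
      by_cases hσK : σ ∈ K
      · have cK : Nat.card K ≤ 2 := by
          have hinj : Function.Injective (fun k : K => (decide ((k : G) = 0) : Bool)) := by
            intro k k' h
            have h1 : ((k : G) = 0) ↔ ((k' : G) = 0) := by
              simpa using h
            apply Subtype.ext
            rcases hKσ k k.2 with h2 | h2 <;> rcases hKσ k' k'.2 with h3 | h3
            · rw [h2, h3]
            · exact absurd (h1.1 h2) (by rw [h3]; exact hσ0)
            · exact absurd (h1.2 h3) (by rw [h2]; exact hσ0)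
            · rw [h2, h3]
          have := Nat.card_le_card_of_injective _ hinj
          simpa using this
        have hh : ∀ (S S' : Finset G), S' ⊆ S → (∀ x ∈ S, x + σ ∉ S) →
            2 * S'.card ≤ (hull K S').card := by
          intro S S' hS' hS
          have h1 : S' ∪ S'.image (fun x => σ + x) ⊆ hull K S' := by
            intro z hz
            rw [mem_union, mem_image] at hz
            rcases hz with hz | ⟨x, hx, rfl⟩
            · exact subset_hull K S' hz
            · exact hull_periodic hσK (subset_hull K S' hx)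
          have h2 : Disjoint S' (S'.image (fun x => σ + x)) := by
            rw [Finset.disjoint_left]
            intro z hz hz'
            rw [mem_image] at hz'
            obtain ⟨x, hx, rfl⟩ := hz'
            exact hS x (hS' hx) (by rw [add_comm]; exact hS' hz)
          have h3 := card_le_card h1
          rw [card_union_of_disjoint h2, card_image_add] at h3
          omega
        have h1 := hh X X' (fun x hx => (mX x hx).1) hX
        have h2 := hh Y Y' (fun x hx => (mY x hx).1) hY
        omega
      · have cK : Nat.card K ≤ 1 := by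
          have : K = ⊥ := by
            rw [eq_bot_iff]
            intro k hk
            rw [AddSubgroup.mem_bot]
            rcases hKσ k hk with h | h
            · exact h
            · exact absurd (h ▸ hk) hσK
          rw [this, AddSubgroup.card_bot]
        have h1 := card_hull_ge K X'
        have h2 := card_hull_ge K Y'
        omega
    by_contra hcon
    push Not at hcon
    omega

end Pool.Agent.Work.MP_59976d_co
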