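import Pool.Agent.Work.MP_59976d_co_even.Interface
import Pool.Agent.Work.MP_59976d_co_even.Alt

/-!
Block S4: fibres of order two.
-/

namespace Pool.Agent.Work.MP_59976d_co

open Finset
open scoped Pointwise

universe u

theorem stmt_S4 (hST : Stmt_Struct.{u}) : Stmt_S4.{u} := by
  intro G _ _ _ hsub A B hadm hF σ hσ0 hσ2 hfib
  classical
  have : Fintype G := Fintype.ofFinite G
  set L := AddSubgroup.zmultiples σ with hL
  have : Fintype (G ⧸ L) := Fintype.ofFinite _
  have hcL : Nat.card L = 2 := card_zm hσ0 hσ2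
  have hA0 : 1 ≤ (part L A 0).card := card_part_pos L hadm.zA
  have hB0 : 1 ≤ (part L B 0).card := card_part_pos L hadm.zB
  have hC0 := part_zero_lt L (zero_notMem_rs' hadm)
  rw [hcL] at hC0
  have hsum : ∑ i, (part L (rs A B) i).card + 2 ≤ ∑ i, (part L A i).card +
      ∑ i, (part L B i).card := by
    rw [← card_eq_sum_part, ← card_eq_sum_part, ← card_eq_sum_part]
    omega
  obtain ⟨K, m, m', g, hH, halt⟩ := hST (G ⧸ L) 2 (fun i => (part L A i).card)
    (fun i => (part L B i).card) (fun i => (part L (rs A B) i).card)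
    (fun i => hcL ▸ card_part_le L A i) (fun i => hcL ▸ card_part_le L B i) hA0 hB0 hC0 hfib hsum
  have hle1 : ∀ i, (part L A i).card ≤ m i := hH.le_m
  have hle2 : ∀ i, (part L B i).card ≤ m' i := hH.le_m'
  have hle3 : ∀ i, g i ≤ (part L (rs A B) i).card := hH.g_le
  have l1 := hle1 0
  have l2 := hle2 0
  have l3 := hle3 0
  have h1 : g 0 + 1 = m 0 + m' 0 := by
    rcases halt with h1 | ⟨⟨y, _, y1, y2, y3⟩, ⟨x, _, x1, x2, x3⟩, ⟨z, _, z1, z2, z3⟩⟩
    · exact h1
    · omega
  have hK : K = ⊤ := alt_one (fun H hH => (hsub H hH).scherk) A B hadm hF L 2 K m m' g hH h1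
  have e1 : ∀ x, m x = 1 := by
    intro x
    have e1 := hH.per_m x (by rw [hK]; exact AddSubgroup.mem_top x) 0
    rw [add_zero] at e1
    omega
  have e2 : ∀ x, m' x = 1 := by
    intro x
    have e1 := hH.per_m' x (by rw [hK]; exact AddSubgroup.mem_top x) 0
    rw [add_zero] at e1
    omega
  constructor
  · intro a ha ha'
    have h2 : (part L A (QuotientAddGroup.mk a)).card = 2 :=
      (card_part_eq_two_iff hσ0 hσ2 A a).2 ⟨ha, ha'⟩
    have h3 := hle1 (QuotientAddGroup.mk a)
    rw [e1] at h3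
    omega
  · intro a ha ha'
    have h2 : (part L B (QuotientAddGroup.mk a)).card = 2 :=
      (card_part_eq_two_iff hσ0 hσ2 B a).2 ⟨ha, ha'⟩
    have h3 := hle2 (QuotientAddGroup.mk a)
    rw [e2] at h3
    omega

end Pool.Agent.Work.MP_59976d_co
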