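import Pool.Agent.Work.MP_59976d_co_even_helper55.S8AP
import Pool.Agent.Work.MP_59976d_co_even.Alt

/-!
Block S8: the end game in a subgroup of index two.
-/

namespace Pool.Agent.Work.MP_59976d_co

open Finset
open scoped Pointwise

universe u

namespace S8

variable {G : Type u} [AddCommGroup G] [DecidableEq G]

lemma card_split (N : AddSubgroup G) (X X0 X1 : Finset G) (h0 : ∀ x, x ∈ X0 ↔ x ∈ X ∧ x ∈ N)
    (h1 : ∀ x, x ∈ X1 ↔ x ∈ X ∧ x ∉ N) : X.card = X0.card + X1.card := by
  rw [← card_union_of_disjoint]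
  · congr 1
    ext x
    rw [mem_union, h0, h1]
    tauto
  · rw [Finset.disjoint_left]
    intro x hx hx'
    exact ((h1 x).1 hx').2 ((h0 x).1 hx).2

/-- The data of the end game. -/
structure Data (A B : Finset G) (σ : G) (N : AddSubgroup G) (A0 A1 B0 B1 C0 C1 : Finset G) :
    Prop where
  core : Core A B σ
  idx : ∀ x y : G, x + y ∈ N ↔ (x ∈ N ↔ y ∈ N)
  cardG : Nat.card G = 2 * Nat.card N
  mA0 : ∀ x, x ∈ A0 ↔ x ∈ A ∧ x ∈ N
  mA1 : ∀ x, x ∈ A1 ↔ x ∈ A ∧ x ∉ N
  mB0 : ∀ x, x ∈ B0 ↔ x ∈ B ∧ x ∈ N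
  mB1 : ∀ x, x ∈ B1 ↔ x ∈ B ∧ x ∉ N
  mC0 : ∀ x, x ∈ C0 ↔ x ∈ rs A B ∧ x ∈ N
  mC1 : ∀ x, x ∈ C1 ↔ x ∈ rs A B ∧ x ∉ N

variable {A B : Finset G} {σ : G} {N : AddSubgroup G} {A0 A1 B0 B1 C0 C1 : Finset G}

lemma Data.sub_mem (h : Data A B σ N A0 A1 B0 B1 C0 C1) {x y : G} (hx : x ∉ N) (hy : y ∉ N) :
    x - y ∈ N := by
  have := h.idx (x - y) y
  rw [sub_add_cancel] at this
  tauto

lemma Data.z0A (h : Data A B σ N A0 A1 B0 B1 C0 C1) : (0 : G) ∈ A0 :=
  (h.mA0 0).2 ⟨h.core.ce.adm.zA, N.zero_mem⟩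

lemma Data.z0B (h : Data A B σ N A0 A1 B0 B1 C0 C1) : (0 : G) ∈ B0 :=
  (h.mB0 0).2 ⟨h.core.ce.adm.zB, N.zero_mem⟩

lemma Data.sub01 (h : Data A B σ N A0 A1 B0 B1 C0 C1) : A0 + B1 ⊆ C1 := by
  intro z hz
  rw [mem_add] at hz
  obtain ⟨x, hx, y, hy, rfl⟩ := hz
  rw [h.mA0] at hx
  rw [h.mB1] at hy
  rw [h.mC1]
  refine ⟨mem_rs.2 ⟨x, hx.1, y, hy.1, ?_, rfl⟩, ?_⟩
  · rintro rfl
    exact hy.2 hx.2
  · rw [h.idx]
    tauto

lemma Data.sub10 (h : Data A B σ N A0 A1 B0 B1 C0 C1) : A1 + B0 ⊆ C1 := by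
  intro z hz
  rw [mem_add] at hz
  obtain ⟨x, hx, y, hy, rfl⟩ := hz
  rw [h.mA1] at hx
  rw [h.mB0] at hy
  rw [h.mC1]
  refine ⟨mem_rs.2 ⟨x, hx.1, y, hy.1, ?_, rfl⟩, ?_⟩
  · rintro rfl
    exact hx.2 hy.2
  · rw [h.idx]
    tauto

lemma Data.rs00 (h : Data A B σ N A0 A1 B0 B1 C0 C1) : rs A0 B0 ⊆ C0 := by
  intro z hz
  rw [mem_rs] at hz
  obtain ⟨x, hx, y, hy, hne, rfl⟩ := hz
  rw [h.mA0] at hx
  rw [h.mB0] at hy
  rw [h.mC0]
  exact ⟨mem_rs.2 ⟨x, hx.1, y, hy.1, hne, rfl⟩, N.add_mem hx.2 hy.2⟩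

lemma Data.rs11 (h : Data A B σ N A0 A1 B0 B1 C0 C1) : rs A1 B1 ⊆ C0 := by
  intro z hz
  rw [mem_rs] at hz
  obtain ⟨x, hx, y, hy, hne, rfl⟩ := hz
  rw [h.mA1] at hx
  rw [h.mB1] at hy
  rw [h.mC0]
  refine ⟨mem_rs.2 ⟨x, hx.1, y, hy.1, hne, rfl⟩, ?_⟩
  rw [h.idx]
  tauto

lemma Data.z0C (h : Data A B σ N A0 A1 B0 B1 C0 C1) : (0 : G) ∉ C0 := by
  intro h0
  exact zero_notMem_rs h.core.ce.adm ((h.mC0 0).1 h0).1

/-- I1 -/
lemma Data.I1' (h : Data A B σ N A0 A1 B0 B1 C0 C1) (hN : LL N) :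
    A0.card + B0.card ≤ (rs A0 B0).card + 3 := by
  have hlost : (0 : G) + 0 ∉ rs A0 B0 := by
    rw [add_zero]
    intro h0
    exact h.z0C (h.rs00 h0)
  have h1 := LL.coset N hN A0 B0 0
    (fun x hx => by rw [sub_zero]; exact ((h.mA0 x).1 hx).2)
    (fun x hx => by rw [sub_zero]; exact ((h.mB0 x).1 hx).2) h.z0A h.z0B hlost
  have h2 : (A0.filter (fun a => 0 + 0 - a ∈ B0)).card ≤ 1 := by
    rw [card_le_one]
    intro a ha b hb
    have key : ∀ a ∈ A0.filter (fun a => 0 + 0 - a ∈ B0), a = 0 := by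
      intro a ha
      rw [mem_filter, h.mA0, add_zero, zero_sub, h.mB0] at ha
      exact h.core.ce.adm.uniq a ha.1.1 ha.2.1
    rw [key a ha, key b hb]
  omega

lemma Data.I1 (h : Data A B σ N A0 A1 B0 B1 C0 C1) (hN : LL N) :
    A0.card + B0.card ≤ C0.card + 3 := by
  have h1 := h.I1' hN
  have h3 := card_le_card h.rs00
  omega

/-- I2 -/
lemma Data.I2 [Finite G] (hK : Stmt_Kneser.{u}) (hC : Stmt_CDH.{u})
    (h : Data A B σ N A0 A1 B0 B1 C0 C1) (S11 : SS A1 B1 ∨ (Nat.card N).Prime) (hN : LL N)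
    (hA1 : A1.Nonempty) (hB1 : B1.Nonempty) : A1.card + B1.card ≤ C0.card + 3 := by
  classical
  by_cases hl : ∃ z ∈ A1 + B1, z ∉ rs A B
  · obtain ⟨z, hz, hz'⟩ := hl
    rw [mem_add] at hz
    obtain ⟨x, hx, y, hy, rfl⟩ := hz
    have hx' := (h.mA1 x).1 hx
    have hy' := (h.mB1 y).1 hy
    have hxy : x = y := by
      by_contra hne
      exact hz' (mem_rs.2 ⟨x, hx'.1, y, hy'.1, hne, rfl⟩)
    subst hxy
    have hlost : x + x ∉ rs A1 B1 := fun h0 => hz' ((h.mC0 _).1 (h.rs11 h0)).1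
    have h1 := LL.coset N hN A1 B1 x
      (fun a ha => h.sub_mem ((h.mA1 a).1 ha).2 hx'.2)
      (fun a ha => h.sub_mem ((h.mB1 a).1 ha).2 hx'.2) hx hy hlost
    have h2 : (A1.filter (fun a => x + x - a ∈ B1)).card ≤ 1 := by
      rw [card_le_one]
      intro a ha b hb
      have key : ∀ a ∈ A1.filter (fun a => x + x - a ∈ B1), a = x := by
        intro a ha
        rw [mem_filter, h.mA1, h.mB1] at ha
        exact h.core.lost x hx'.1 hy'.1 hz' a ha.1.1 ha.2.1
      rw [key a ha, key b hb]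
    have h3 := card_le_card h.rs11
    omega
  · push Not at hl
    have hsub : A1 + B1 ⊆ C0 := by
      intro z hz
      rw [h.mC0]
      refine ⟨hl z hz, ?_⟩
      rw [mem_add] at hz
      obtain ⟨x, hx, y, hy, rfl⟩ := hz
      rw [h.mA1] at hx
      rw [h.mB1] at hy
      rw [h.idx]
      tauto
    have hcard := card_le_card hsub
    rcases S11 with hSS | hp
    · have := (hC G A1 B1 hSS hA1 hB1).1
      omega
    · obtain ⟨K, hst, hKc⟩ := hK G A1 B1 hA1 hB1
      have hKN : K ≤ N := by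
        intro k hk
        obtain ⟨z, hz⟩ := hA1.add hB1
        have h1 := ((h.mC0 _).1 (hsub hz)).2
        have h2 := ((h.mC0 _).1 (hsub ((hst k).1 hk z hz))).2
        have := N.sub_mem h2 h1
        simpa using this
      have h1 := card_hull_ge K A1
      have h2 := card_hull_ge K B1
      rcases (Nat.dvd_prime hp).1 (AddSubgroup.card_dvd_of_le hKN) with h3 | h3
      · omega
      · exfalso
        have hKN' : K = N := AddSubgroup.eq_of_le_of_card_ge hKN (by omega)
        obtain ⟨z, hz⟩ := hA1.add hB1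
        have h4 : -z ∈ K := by
          rw [hKN']
          exact N.neg_mem ((h.mC0 _).1 (hsub hz)).2
        have h5 := (hst _).1 h4 z hz
        rw [neg_add_cancel] at h5
        exact h.z0C (hsub h5)

/-- The equalities. -/
lemma Data.equalities [Finite G] (hK : Stmt_Kneser.{u}) (hC : Stmt_CDH.{u})
    (h : Data A B σ N A0 A1 B0 B1 C0 C1) (S01 : SS A0 B1) (S10 : SS A1 B0)
    (S11 : SS A1 B1 ∨ (Nat.card N).Prime) (hN : LL N) :
    A1.card = A0.card ∧ B1.card = B0.card ∧ C0.card + 3 = A0.card + B0.card ∧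
      C1.card + 1 = A0.card + B0.card ∧ 2 ≤ B0.card ∧ B0.card ≤ A0.card ∧
      A.card = 2 * A0.card ∧ B.card = 2 * B0.card := by
  have cA := card_split N A A0 A1 h.mA0 h.mA1
  have cB := card_split N B B0 B1 h.mB0 h.mB1
  have cC := card_split N (rs A B) C0 C1 h.mC0 h.mC1
  have hF := h.core.ce.def4
  have i1 := h.I1 hN
  have hA0 : 0 < A0.card := card_pos.2 ⟨0, h.z0A⟩
  have hB0 : 0 < B0.card := card_pos.2 ⟨0, h.z0B⟩
  have sub1 : B1.card ≤ A1.card := by
    apply card_le_card
    intro x hx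
    rw [h.mB1] at hx
    exact (h.mA1 x).2 ⟨h.core.ce.sub hx.1, hx.2⟩
  have sub0 : B0.card ≤ A0.card := by
    apply card_le_card
    intro x hx
    rw [h.mB0] at hx
    exact (h.mA0 x).2 ⟨h.core.ce.sub hx.1, hx.2⟩
  rcases A1.eq_empty_or_nonempty with hA1 | hA1
  · rw [hA1, card_empty] at cA sub1
    omega
  have i4 := (hC G A1 B0 S10 hA1 ⟨0, h.z0B⟩).1
  have i4' := card_le_card h.sub10
  rcases B1.eq_empty_or_nonempty with hB1 | hB1
  · rw [hB1, card_empty] at cB
    omega
  have i3 := (hC G A0 B1 S01 ⟨0, h.z0A⟩ hB1).1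
  have i3' := card_le_card h.sub01
  have i2 := h.I2 hK hC S11 hN hA1 hB1
  have hb2 : 2 ≤ B0.card := by
    by_contra hb
    have h1 : A0.erase 0 ⊆ C0 := by
      intro x hx
      rw [mem_erase] at hx
      apply h.rs00
      rw [mem_rs]
      exact ⟨x, hx.2, 0, h.z0B, hx.1, add_zero x⟩
    have h2 := card_le_card h1
    rw [card_erase_of_mem h.z0A] at h2
    omega
  omega

/-- `2 |X| ≤ |G|` for a set without pairs `x, x + σ`. -/
lemma half [Finite G] {X : Finset G} (σ : G) (hX : ∀ x ∈ X, x + σ ∉ X) :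
    2 * X.card ≤ Nat.card G := by
  classical
  have : Fintype G := Fintype.ofFinite G
  rw [Nat.card_eq_fintype_card, ← card_univ]
  have h1 : Disjoint X (X.image (fun x => σ + x)) := by
    rw [Finset.disjoint_left]
    intro z hz hz'
    rw [mem_image] at hz'
    obtain ⟨x, hx, rfl⟩ := hz'
    exact hX x hx (by rw [add_comm]; exact hz)
  have h2 := card_le_card (subset_univ (X ∪ X.image (fun x => σ + x)))
  rw [card_union_of_disjoint h1, card_image_add] at h2
  omega

/-- An involution on a set with three elements has a fixed point. -/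
lemma fixed_of_three {D : Finset G} (hD : D.card = 3) (f : G → G) (hf : ∀ z ∈ D, f z ∈ D)
    (hinv : ∀ z, f (f z) = z) : ∃ z ∈ D, f z = z := by
  obtain ⟨x, y, z, hxy, hxz, hyz, rfl⟩ := card_eq_three.1 hD
  by_contra hcon
  push Not at hcon
  have hx := hf x (by simp)
  have hy := hf y (by simp)
  have hz := hf z (by simp)
  have nx := hcon x (by simp)
  have ny := hcon y (by simp)
  have nz := hcon z (by simp)
  simp only [mem_insert, mem_singleton] at hx hy hz
  rcases hx with hx | hx | hx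
  · exact nx hx
  · -- f x = y
    have h1 : f y = x := by rw [← hx, hinv]
    rcases hz with hz | hz | hz
    · have := hinv z
      rw [hz, hx] at this
      exact hyz this
    · have := hinv z
      rw [hz, h1] at this
      exact hxz this
    · exact nz hz
  · -- f x = z
    have h1 : f z = x := by rw [← hx, hinv]
    rcases hy with hy | hy | hy
    · have := hinv y
      rw [hy, hx] at this
      exact hyz this.symm
    · exact ny hy
    · have := hinv y
      rw [hy, h1] at this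
      exact hxy this

lemma card_filter_mem [Fintype G] (N : AddSubgroup G) [DecidablePred (· ∈ N)] :
    (univ.filter (fun x : G => x ∈ N)).card = Nat.card N := by
  rw [Nat.card_eq_fintype_card, ← Fintype.card_subtype]

/-- Case (c): the parts fill exactly half of `N`. -/
lemma Data.caseC [Finite G] (h : Data A B σ N A0 A1 B0 B1 C0 C1) (hN : LL N)
    (hA1 : A1.card = A0.card) (_hB1 : B1.card = B0.card) (hC0 : C0.card + 3 = A0.card + B0.card)
    (hC1 : C1.card + 1 = A0.card + B0.card) (hA : A.card = 2 * A0.card)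
    (hB : B.card = 2 * B0.card) (hab : A0.card + B0.card = Nat.card N) : False := by
  classical
  have : Fintype G := Fintype.ofFinite G
  have hG := h.cardG
  have e1 := half σ h.core.A1
  have e2 := half σ h.core.B1
  have hAB : B = A := eq_of_subset_of_card_le h.core.ce.sub (by omega)
  have hAB0 : B0 = A0 := by
    ext x; rw [h.mA0, h.mB0, hAB]
  have hAB1 : B1 = A1 := by
    ext x; rw [h.mA1, h.mB1, hAB]
  have h2a : 2 * A0.card = Nat.card N := by
    rw [hAB0] at hab; omega
  -- `σ ∈ N`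
  have hσN : σ ∈ N := by
    obtain ⟨w, hw⟩ := exists_prime_addOrderOf_dvd_card' (G := N) 2 ⟨A0.card, h2a.symm⟩
    have h0 : (w : G) ≠ 0 := by
      intro h0
      have : w = 0 := Subtype.ext h0
      rw [this, addOrderOf_zero] at hw
      omega
    have h2 : (w : G) + w = 0 := by
      have := addOrderOf_nsmul_eq_zero w
      rw [hw, two_nsmul] at this
      exact congrArg Subtype.val this
    rcases h.core.uniq w h2 with h3 | h3
    · exact absurd h3 h0
    · rw [← h3]; exact w.2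
  -- the missing element
  have hspl := card_split N univ (univ.filter (fun x : G => x ∈ N))
    (univ.filter (fun x : G => x ∉ N)) (by simp) (by simp)
  rw [card_filter_mem, card_univ, ← Nat.card_eq_fintype_card] at hspl
  obtain ⟨e, heN, heC⟩ : ∃ e : G, e ∉ N ∧ e ∉ rs A B := by
    by_contra hcon
    push Not at hcon
    have : univ.filter (fun x : G => x ∉ N) ⊆ C1 := by
      intro x hx
      rw [mem_filter] at hx
      rw [h.mC1]
      exact ⟨hcon x hx.2, hx.2⟩
    have := card_le_card this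
    omega
  have hpair : ∀ y ∈ N, y ∉ A0 → y + σ ∈ A0 := by
    intro y hy hyA
    have hd : Disjoint A0 (A0.image (fun x => σ + x)) := by
      rw [Finset.disjoint_left]
      intro z hz hz'
      rw [mem_image] at hz'
      obtain ⟨x, hx, rfl⟩ := hz'
      have h1 := ((h.mA0 _).1 hz).1
      rw [add_comm] at h1
      exact h.core.A1 x ((h.mA0 x).1 hx).1 h1
    have hsub : A0 ∪ A0.image (fun x => σ + x) ⊆ univ.filter (fun x : G => x ∈ N) := by
      intro z hz
      rw [mem_filter]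
      refine ⟨mem_univ _, ?_⟩
      rw [mem_union, mem_image] at hz
      rcases hz with hz | ⟨x, hx, rfl⟩
      · exact ((h.mA0 z).1 hz).2
      · exact N.add_mem hσN ((h.mA0 x).1 hx).2
    have heq := eq_of_subset_of_card_le hsub (by
      rw [card_union_of_disjoint hd, card_image_add, card_filter_mem]; omega)
    have hy' : y ∈ A0 ∪ A0.image (fun x => σ + x) := by
      rw [heq, mem_filter]; exact ⟨mem_univ _, hy⟩
    rw [mem_union, mem_image] at hy'
    rcases hy' with hy' | ⟨x, hx, rfl⟩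
    · exact absurd hy' hyA
    · rw [show σ + x + σ = x + (σ + σ) by abel, h.core.two, add_zero]
      exact hx
  have hX : ∀ x ∈ A1, e + σ - x ∈ A0 := by
    intro x hx
    have h1 : e - x ∈ N := h.sub_mem heN ((h.mA1 x).1 hx).2
    have h2 : e - x ∉ A0 := by
      intro h2
      apply heC
      have h3 : x + (e - x) ∈ C1 := h.sub10 (add_mem_add hx (by rw [hAB0]; exact h2))
      rw [add_sub_cancel] at h3
      exact ((h.mC1 e).1 h3).1
    have h3 := hpair _ h1 h2
    rwa [show e - x + σ = e + σ - x by abel] at h3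
  have hY : ∀ y ∈ A0, e + σ - y ∈ A1 := by
    have h1 : A1.image (fun x => e + σ - x) = A0 := by
      apply eq_of_subset_of_card_le
      · intro z hz
        rw [mem_image] at hz
        obtain ⟨x, hx, rfl⟩ := hz
        exact hX x hx
      · rw [card_image_of_injective _ sub_right_injective, hA1]
    intro y hy
    rw [← h1, mem_image] at hy
    obtain ⟨x, hx, rfl⟩ := hy
    rwa [sub_sub_cancel]
  have hC0eq : rs A0 B0 = C0 := by
    apply eq_of_subset_of_card_le h.rs00
    have := h.I1' hN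
    omega
  have hee : e + e ∈ N := (h.idx e e).2 Iff.rfl
  have hsymm : ∀ z ∈ C0, e + e - z ∈ C0 := by
    intro z hz
    rw [← hC0eq, mem_rs] at hz
    obtain ⟨x, hx, y, hy, hne, rfl⟩ := hz
    rw [hAB0] at hy
    apply h.rs11
    rw [mem_rs]
    refine ⟨e + σ - x, hY x hx, e + σ - y, by rw [hAB1]; exact hY y hy,
      fun h' => hne (sub_right_injective h'), ?_⟩
    calc e + σ - x + (e + σ - y) = e + e - (x + y) + (σ + σ) := by abel
      _ = _ := by rw [h.core.two, add_zero]
  set D := univ.filter (fun x : G => x ∈ N ∧ x ∉ C0) with hD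
  have hDc : D.card = 3 := by
    have h1 : C0 ∪ D = univ.filter (fun x : G => x ∈ N) := by
      ext x
      rw [mem_union, hD, mem_filter, mem_filter]
      have := h.mC0 x
      constructor
      · rintro (hx | hx)
        · exact ⟨mem_univ _, (this.1 hx).2⟩
        · exact ⟨mem_univ _, hx.2.1⟩
      · rintro ⟨_, hx⟩
        by_cases hx' : x ∈ C0
        · exact Or.inl hx'
        · exact Or.inr ⟨mem_univ _, hx, hx'⟩
    have h2 : Disjoint C0 D := by
      rw [Finset.disjoint_left]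
      intro x hx hx'
      rw [hD, mem_filter] at hx'
      exact hx'.2.2 hx
    have h3 := card_union_of_disjoint h2
    rw [h1, card_filter_mem] at h3
    omega
  obtain ⟨z, hz, hfz⟩ := fixed_of_three hDc (fun z => e + e - z) (by
    intro z hz
    rw [hD, mem_filter] at hz ⊢
    refine ⟨mem_univ _, N.sub_mem hee hz.2.1, fun hz' => hz.2.2 ?_⟩
    have := hsymm _ hz'
    rwa [sub_sub_cancel] at this) (fun z => sub_sub_cancel _ _)
  rw [hD, mem_filter] at hz
  have h4 : (e - z) + (e - z) = 0 := by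
    have : e + e - z - z = 0 := by
      rw [sub_eq_zero]; exact hfz
    rw [← this]; abel
  have h5 : e - z ∈ N := by
    rcases h.core.uniq _ h4 with h5 | h5
    · rw [h5]; exact N.zero_mem
    · rw [h5]; exact hσN
  apply heN
  have := N.add_mem h5 hz.2.1
  rwa [sub_add_cancel] at this

/-- Case (d), all four parts being progressions with the same difference. -/
lemma Data.caseD_aux [Finite G] (h : Data A B σ N A0 A1 B0 B1 C0 C1)
    (hA1 : A1.card = A0.card) (hC0 : C0.card + 3 = A0.card + B0.card)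
    (hA : A.card = 2 * A0.card) (hB : B.card = 2 * B0.card)
    (hab : A0.card + B0.card + 1 ≤ Nat.card N) (hb2 : 2 ≤ B0.card) (hle : B0.card ≤ A0.card)
    (δ : G) (hδ : δ ∈ A0) (hn : addOrderOf δ = Nat.card N) (hz : AddSubgroup.zmultiples δ = N)
    (pA0 : IsAP δ A0) (pB0 : IsAP δ B0) (pA1 : IsAP δ A1) : False := by
  classical
  have hδ0 : δ ≠ 0 := by
    rintro rfl
    rw [addOrderOf_zero] at hn
    omega
  have n1 : -δ ∉ B0 := fun h' =>
    hδ0 (h.core.ce.adm.uniq δ ((h.mA0 δ).1 hδ).1 ((h.mB0 _).1 h').1)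
  have hδB : δ ∈ B0 := (ap_zero_or pB0 h.z0B hb2).resolve_right n1
  have n2 : -δ ∉ A0 := fun h' => by
    have := h.core.ce.adm.uniq (-δ) ((h.mA0 _).1 h').1 (by
      rw [neg_neg]; exact ((h.mB0 _).1 hδB).1)
    exact hδ0 (neg_eq_zero.1 this)
  have eA0 := ap_zero pA0 h.z0A n2
  have eB0 := ap_zero pB0 h.z0B n1
  have mA : ∀ i, i < A0.card → i • δ ∈ A0 := by
    intro i hi
    rw [eA0]
    exact mem_image.2 ⟨i, mem_range.2 hi, rfl⟩
  have mB : ∀ i, i < B0.card → i • δ ∈ B0 := by
    intro i hi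
    rw [eB0]
    exact mem_image.2 ⟨i, mem_range.2 hi, rfl⟩
  have inj : ∀ i j, i < Nat.card N → j < Nat.card N → i • δ = j • δ → i = j := by
    intro i j hi hj hij
    exact nsmul_inj (by omega) (by omega) hij
  have sums : ∀ i j, i < A0.card → j < B0.card → i ≠ j → (i + j) • δ ∈ C0 := by
    intro i j hi hj hij
    apply h.rs00
    rw [mem_rs]
    exact ⟨i • δ, mA i hi, j • δ, mB j hj,
      fun h' => hij (inj i j (by omega) (by omega) h'), (add_nsmul _ _ _).symm⟩
  have heq : A0.card = B0.card := by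
    by_contra hne
    have h1 : (Finset.Icc 1 (A0.card + B0.card - 2)).image (fun k : ℕ => k • δ) ⊆ C0 := by
      intro z hz'
      rw [mem_image] at hz'
      obtain ⟨k, hk, rfl⟩ := hz'
      rw [mem_Icc] at hk
      rcases Nat.lt_or_ge k A0.card with h2 | h2
      · have := sums k 0 h2 (by omega) (by omega)
        rwa [add_zero] at this
      · have := sums (A0.card - 1) (k - (A0.card - 1)) (by omega) (by omega) (by omega)
        rwa [show A0.card - 1 + (k - (A0.card - 1)) = k by omega] at this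
    have h2 := card_le_card h1
    rw [card_image_of_injOn, Nat.card_Icc] at h2
    · omega
    · intro i hi j hj hij
      rw [mem_coe, mem_Icc] at hi hj
      exact inj i j (by omega) (by omega) hij
  have hAB : B = A := eq_of_subset_of_card_le h.core.ce.sub (by omega)
  have hAB1 : B1 = A1 := by
    ext x; rw [h.mA1, h.mB1, hAB]
  set L := C0.card with hL
  have hC0eq : (Finset.Icc 1 L).image (fun k : ℕ => k • δ) = C0 := by
    apply eq_of_subset_of_card_le
    · intro z hz'
      rw [mem_image] at hz'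
      obtain ⟨k, hk, rfl⟩ := hz'
      rw [mem_Icc] at hk
      rcases Nat.lt_or_ge k A0.card with h2 | h2
      · have := sums k 0 h2 (by omega) (by omega)
        rwa [add_zero] at this
      · have := sums (A0.card - 1) (k - (A0.card - 1)) (by omega) (by omega) (by omega)
        rwa [show A0.card - 1 + (k - (A0.card - 1)) = k by omega] at this
    · rw [card_image_of_injOn, Nat.card_Icc]
      · omega
      · intro i hi j hj hij
        rw [mem_coe, mem_Icc] at hi hj
        exact inj i j (by omega) (by omega) hij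
  have memC0 : ∀ k, k < Nat.card N → k • δ ∈ C0 → 1 ≤ k ∧ k ≤ L := by
    intro k hk hkC
    rw [← hC0eq, mem_image] at hkC
    obtain ⟨i, hi, hik⟩ := hkC
    rw [mem_Icc] at hi
    have := inj i k (by omega) hk hik
    omega
  obtain ⟨g, hg⟩ := pA1
  have mA1 : ∀ i, i < A1.card → g + i • δ ∈ A1 := by
    intro i hi
    rw [hg]
    exact mem_image.2 ⟨i, mem_range.2 hi, rfl⟩
  have sums1 : ∀ i j, i < A0.card → j < A0.card → i ≠ j → g + g + (i + j) • δ ∈ C0 := by
    intro i j hi hj hij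
    apply h.rs11
    rw [mem_rs]
    refine ⟨g + i • δ, mA1 i (by omega), g + j • δ, by rw [hAB1]; exact mA1 j (by omega),
      fun h' => hij (inj i j (by omega) (by omega) (add_left_cancel h')), ?_⟩
    rw [add_nsmul]; abel
  have sums1' : ∀ k, 1 ≤ k → k ≤ L → g + g + k • δ ∈ C0 := by
    intro k hk hkL
    rcases Nat.lt_or_ge k A0.card with h2 | h2
    · have := sums1 k 0 h2 (by omega) (by omega)
      rwa [add_zero] at this
    · have := sums1 (A0.card - 1) (k - (A0.card - 1)) (by omega) (by omega) (by omega)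
      rwa [show A0.card - 1 + (k - (A0.card - 1)) = k by omega] at this
  have hg1 : g ∈ A1 := by
    have := mA1 0 (by omega)
    simpa using this
  have hgN : g ∉ N := ((h.mA1 g).1 hg1).2
  have hgg : g + g ∈ AddSubgroup.zmultiples δ := by
    rw [hz, h.idx]
  rw [mem_zmultiples_iff_mem_range_addOrderOf, mem_image] at hgg
  obtain ⟨m, hm, hmg⟩ := hgg
  rw [mem_range, hn] at hm
  have hm0 : m = 0 := by
    by_contra hmne
    have h1 := sums1' 1 le_rfl (by omega)
    rw [← hmg, ← add_nsmul] at h1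
    rcases Nat.lt_or_ge (m + 1) (Nat.card N) with h2 | h2
    · have h3 := memC0 _ h2 h1
      have h4 := sums1' (L + 1 - m) (by omega) (by omega)
      rw [← hmg, ← add_nsmul, show m + (L + 1 - m) = L + 1 by omega] at h4
      have h5 := memC0 _ (by omega) h4
      omega
    · have h3 : m + 1 = addOrderOf δ := by omega
      rw [h3, addOrderOf_nsmul_eq_zero] at h1
      exact h.z0C h1
  rw [hm0, zero_nsmul] at hmg
  rcases h.core.uniq g hmg.symm with h1 | h1
  · exact hgN (by rw [h1]; exact N.zero_mem)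
  · apply h.core.A1 0 h.core.ce.adm.zA
    rw [zero_add, ← h1]
    exact ((h.mA1 g).1 hg1).1

/-- Case (d). -/
lemma Data.caseD [Finite G] (hC : Stmt_CDH.{u}) (hV : Stmt_V.{u})
    (h : Data A B σ N A0 A1 B0 B1 C0 C1) (S01 : SS A0 B1) (S10 : SS A1 B0)
    (hA1 : A1.card = A0.card) (hB1 : B1.card = B0.card) (hC0 : C0.card + 3 = A0.card + B0.card)
    (hC1 : C1.card + 1 = A0.card + B0.card) (hA : A.card = 2 * A0.card)
    (hB : B.card = 2 * B0.card) (hab : A0.card + B0.card + 1 ≤ Nat.card N)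
    (hb2 : 2 ≤ B0.card) (hle : B0.card ≤ A0.card) : False := by
  classical
  have hbig := h.core.big
  have hG := h.cardG
  have co0 : ∀ X : Finset G, (∀ x ∈ X, x ∈ N) → InCoset N X := by
    intro X hX
    exact ⟨0, fun x hx => (QuotientAddGroup.eq_zero_iff x).2 (hX x hx)⟩
  have co1 : ∀ X : Finset G, X.Nonempty → (∀ x ∈ X, x ∉ N) → InCoset N X := by
    rintro X ⟨x, hx⟩ hX
    refine ⟨QuotientAddGroup.mk x, fun y hy => ?_⟩
    rw [mk_eq_iff]
    exact h.sub_mem (hX x hx) (hX y hy)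
  have neA0 : A0.Nonempty := ⟨0, h.z0A⟩
  have neB0 : B0.Nonempty := ⟨0, h.z0B⟩
  have neA1 : A1.Nonempty := card_pos.1 (by omega)
  have neB1 : B1.Nonempty := card_pos.1 (by omega)
  have c01 := (hC G A0 B1 S01 neA0 neB1).1
  have c10 := (hC G A1 B0 S10 neA1 neB0).1
  have e01 : A0 + B1 = C1 := eq_of_subset_of_card_le h.sub01 (by omega)
  have e10 : A1 + B0 = C1 := eq_of_subset_of_card_le h.sub10 (by omega)
  have k01 : (A0 + B1).card + 1 = A0.card + B1.card := by rw [e01]; omega
  have k10 : (A1 + B0).card + 1 = A1.card + B0.card := by rw [e10]; omega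
  obtain ⟨d, dA0, dB1, hd⟩ := ap_of_crit hV N A0 B1 S01
    (co0 A0 (fun x hx => ((h.mA0 x).1 hx).2)) (co1 B1 neB1 (fun x hx => ((h.mB1 x).1 hx).2))
    (by omega) (by omega) k01 (by omega) (by omega)
  obtain ⟨d', dA1, dB0, hd'⟩ := ap_of_crit hV N A1 B0 S10
    (co1 A1 neA1 (fun x hx => ((h.mA1 x).1 hx).2)) (co0 B0 (fun x hx => ((h.mB0 x).1 hx).2))
    (by omega) (by omega) k10 (by omega) (by omega)
  have pC : IsAP d C1 := e01 ▸ isAP_add dA0 dB1 k01
  have pC' : IsAP d' C1 := e10 ▸ isAP_add dA1 dB0 k10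
  have hn : addOrderOf d = Nat.card N := by rw [← hd, Nat.card_zmultiples]
  have hmem : d' ∈ AddSubgroup.zmultiples d := by
    rw [hd, ← hd']
    exact AddSubgroup.mem_zmultiples d'
  have hdd := ap_diff pC pC' hmem (by omega) (by omega)
  have pA1 : IsAP d A1 := by
    rcases hdd with rfl | rfl
    · exact dA1
    · have := isAP_neg dA1
      rwa [neg_neg] at this
  have pB0 : IsAP d B0 := by
    rcases hdd with rfl | rfl
    · exact dB0
    · have := isAP_neg dB0
      rwa [neg_neg] at this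
  rcases ap_zero_or dA0 h.z0A (by omega) with h1 | h1
  · exact h.caseD_aux hA1 hC0 hA hB hab hb2 hle d h1 hn hd dA0 pB0 pA1
  · exact h.caseD_aux hA1 hC0 hA hB hab hb2 hle (-d) h1 (by rw [addOrderOf_neg, hn])
      (by rw [AddSubgroup.zmultiples_neg, hd]) (isAP_neg dA0) (isAP_neg pB0) (isAP_neg pA1)

end S8

open Classical in
lemma S8.data {G : Type u} [AddCommGroup G] [Finite G] [DecidableEq G] (A B : Finset G) (σ : G)
    (hcore : Core A B σ) (N : AddSubgroup G) (hN2 : Nat.card G = 2 * Nat.card N) :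
    S8.Data A B σ N (A.filter (fun a => a ∈ N)) (A.filter (fun a => a ∉ N))
      (B.filter (fun b => b ∈ N)) (B.filter (fun b => b ∉ N))
      ((rs A B).filter (fun c => c ∈ N)) ((rs A B).filter (fun c => c ∉ N)) := by
  have hidx : N.index = 2 := by
    have h1 := N.card_mul_index
    have h2 : 0 < Nat.card N := Nat.card_pos
    rw [hN2, mul_comm 2] at h1
    exact Nat.eq_of_mul_eq_mul_left h2 h1
  refine ⟨hcore, ?_, hN2, ?_, ?_, ?_, ?_, ?_, ?_⟩
  · intro x y
    exact AddSubgroup.add_mem_iff_of_index_two hidx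
  all_goals intro x; rw [mem_filter]

theorem stmt_I2 (hK : Stmt_Kneser.{u}) (hC : Stmt_CDH.{u}) : Stmt_I2.{u} := by
  intro G _ _ _ A B σ hcore N hN2 hN hA1 hB1 S11
  exact (S8.data A B σ hcore N hN2).I2 hK hC S11 hN hA1 hB1

theorem stmt_S8 (hK : Stmt_Kneser.{u}) (hC : Stmt_CDH.{u}) (hV : Stmt_V.{u}) : Stmt_S8.{u} := by
  classical
  intro G _ _ _ A B σ hcore N hN2 hN S01 S10 S11
  have hD := S8.data A B σ hcore N hN2
  obtain ⟨h1, h2, h3, h4, h5, h6, h7, h8⟩ := hD.equalities hK hC S01 S10 S11 hN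
  have e1 := S8.half σ hcore.A1
  have e2 := S8.half σ hcore.B1
  rcases Nat.lt_or_ge (_ + _) (Nat.card N) with hlt | hge
  · exact hD.caseD hC hV S01 S10 h1 h2 h3 h4 h7 h8 (Nat.succ_le_of_lt hlt) h5 h6
  · exact hD.caseC hN h1 h2 h3 h4 h7 h8 (le_antisymm (by omega) hge)

end Pool.Agent.Work.MP_59976d_co
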