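import Pool.Agent.Work.MP_59976d_co_even.Interface
import Pool.Agent.Work.MP_59976d_co_even.Basic

/-!
Blocks S1 and S2a: an involution in `A ∪ B`, or outside `A + B`.
-/

namespace Pool.Agent.Work.MP_59976d_co

open Finset
open scoped Pointwise

universe u

namespace S12

variable {G : Type u} [AddCommGroup G] [Finite G] [DecidableEq G] {σ : G} {A B : Finset G}

lemma exists_L1 (h2 : σ + σ = 0) {i : G ⧸ AddSubgroup.zmultiples σ} (hi : i ∈ L1 σ A) :
    ∃ x ∈ A, (QuotientAddGroup.mk x : G ⧸ AddSubgroup.zmultiples σ) = i := by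
  obtain ⟨x, rfl⟩ := QuotientAddGroup.mk_surjective i
  rw [mk_mem_L1 h2] at hi
  rcases hi with hi | hi
  · exact ⟨x, hi, rfl⟩
  · exact ⟨x + σ, hi, by rw [mk_eq_iff_two h2]; right; rw [add_assoc, h2, add_zero]⟩

lemma mk_L1 {x : G} (hx : x ∈ A) :
    (QuotientAddGroup.mk x : G ⧸ AddSubgroup.zmultiples σ) ∈ L1 σ A := by
  rw [mem_L1]
  exact card_part_pos _ hx

lemma mk_add_inv (h2 : σ + σ = 0) (x : G) :
    (QuotientAddGroup.mk (x + σ) : G ⧸ AddSubgroup.zmultiples σ) = QuotientAddGroup.mk x := by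
  rw [mk_eq_iff_two h2]
  right
  rw [add_assoc, h2, add_zero]

/-- Sums of different classes. -/
lemma sum11 (h2 : σ + σ = 0) {i j : G ⧸ AddSubgroup.zmultiples σ} (hi : i ∈ L1 σ A)
    (hj : j ∈ L1 σ B) (hij : i ≠ j) : i + j ∈ L1 σ (rs A B) := by
  obtain ⟨x, hx, rfl⟩ := exists_L1 h2 hi
  obtain ⟨y, hy, rfl⟩ := exists_L1 h2 hj
  rw [← QuotientAddGroup.mk_add]
  apply mk_L1
  rw [mem_rs]
  exact ⟨x, hx, y, hy, fun h => hij (by rw [h]), rfl⟩

/-- Sums of a full class and another class. -/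
lemma sum21 (h0 : σ ≠ 0) (h2 : σ + σ = 0) {i j : G ⧸ AddSubgroup.zmultiples σ} (hi : i ∈ L2 σ A)
    (hj : j ∈ L1 σ B) (hij : i ≠ j) : i + j ∈ L2 σ (rs A B) := by
  obtain ⟨x, rfl⟩ := QuotientAddGroup.mk_surjective i
  obtain ⟨y, hy, rfl⟩ := exists_L1 h2 hj
  rw [mk_mem_L2 h0 h2] at hi
  rw [← QuotientAddGroup.mk_add, mk_mem_L2 h0 h2, mem_rs, mem_rs]
  constructor
  · exact ⟨x, hi.1, y, hy, fun h => hij (by rw [h]), rfl⟩
  · refine ⟨x + σ, hi.2, y, hy, fun h => hij (by rw [← h, mk_add_inv h2]), by abel⟩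

lemma sum12 (h0 : σ ≠ 0) (h2 : σ + σ = 0) {i j : G ⧸ AddSubgroup.zmultiples σ} (hi : i ∈ L1 σ A)
    (hj : j ∈ L2 σ B) (hij : i ≠ j) : i + j ∈ L2 σ (rs A B) := by
  rw [rs_comm, add_comm]
  exact sum21 h0 h2 hj hi hij.symm

/-- A class and a full class have a restricted sum. -/
lemma sum12' (h0 : σ ≠ 0) (h2 : σ + σ = 0) {i j : G ⧸ AddSubgroup.zmultiples σ} (hi : i ∈ L1 σ A)
    (hj : j ∈ L2 σ B) : i + j ∈ L1 σ (rs A B) := by
  obtain ⟨x, hx, rfl⟩ := exists_L1 h2 hi
  obtain ⟨y, rfl⟩ := QuotientAddGroup.mk_surjective j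
  rw [mk_mem_L2 h0 h2] at hj
  rw [← QuotientAddGroup.mk_add]
  by_cases hxy : x = y
  · rw [← mk_add_inv h2]
    apply mk_L1
    rw [mem_rs]
    refine ⟨x, hx, y + σ, hj.2, fun h => h0 ?_, by abel⟩
    rw [hxy] at h
    simpa using h
  · apply mk_L1
    rw [mem_rs]
    exact ⟨x, hx, y, hj.1, hxy, rfl⟩

lemma mk_zero_eq : (QuotientAddGroup.mk (0 : G) : G ⧸ AddSubgroup.zmultiples σ) = 0 := rfl

theorem s1_aux (hS : Stmt_Scherk.{u}) (h0 : σ ≠ 0) (h2 : σ + σ = 0)
    (hQ : RestrictedScherk (G ⧸ AddSubgroup.zmultiples σ)) (h : Adm A B) (hσ : σ ∈ A) :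
    A.card + B.card ≤ (rs A B).card + 3 := by
  classical
  have hneg : -σ = σ := neg_eq_of_add_eq_zero_left h2
  have hσB : σ ∉ B := fun hb => h0 (h.uniq σ hσ (by rwa [hneg]))
  rw [restrictedScherk_iff] at hQ
  have z2A : (0 : G ⧸ AddSubgroup.zmultiples σ) ∈ L2 σ A := by
    rw [← mk_zero_eq (σ := σ), mk_mem_L2 h0 h2, zero_add]
    exact ⟨h.zA, hσ⟩
  have z1A := L2_subset_L1 z2A
  have z1B : (0 : G ⧸ AddSubgroup.zmultiples σ) ∈ L1 σ B := mk_L1 h.zB
  have z2B : (0 : G ⧸ AddSubgroup.zmultiples σ) ∉ L2 σ B := by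
    rw [← mk_zero_eq (σ := σ), mk_mem_L2 h0 h2, zero_add]
    exact fun hb => hσB hb.2
  -- level one
  have c1 : (L1 σ A).card + (L2 σ B).card ≤ (L1 σ (rs A B)).card := by
    have h3 := hS _ (L1 σ A) (insert 0 (L2 σ B)) 0 0 z1A (mem_insert_self _ _) (by
      intro x hx y hy hxy
      rw [add_zero] at hxy
      rw [mem_insert] at hy
      rcases hy with rfl | hy
      · rwa [add_zero] at hxy
      · exfalso
        obtain ⟨a, ha, rfl⟩ := exists_L1 h2 hx
        have hy' : y = QuotientAddGroup.mk (-a) := by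
          rw [QuotientAddGroup.mk_neg]
          exact (neg_eq_of_add_eq_zero_right hxy).symm
        rw [hy', mk_mem_L2 h0 h2] at hy
        have ha0 := h.uniq a ha hy.1
        rw [ha0, neg_zero, zero_add] at hy
        exact hσB hy.2)
    rw [card_insert_of_notMem z2B] at h3
    have h4 : L1 σ A + insert 0 (L2 σ B) ⊆ L1 σ (rs A B) := by
      intro z hz
      rw [mem_add] at hz
      obtain ⟨i, hi, j, hj, rfl⟩ := hz
      rw [mem_insert] at hj
      rcases hj with rfl | hj
      · rw [add_zero]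
        by_cases hi0 : i = 0
        · rw [hi0]
          have : (0 : G ⧸ AddSubgroup.zmultiples σ) = QuotientAddGroup.mk (0 + σ) := by
            rw [mk_add_inv h2]; rfl
          rw [this]
          apply mk_L1
          rw [mem_rs]
          exact ⟨σ, hσ, 0, h.zB, h0, by rw [add_zero, zero_add]⟩
        · have := sum11 h2 hi z1B hi0
          rwa [add_zero] at this
      · exact sum12' h0 h2 hi hj
    have := card_le_card h4
    omega
  -- level two
  have c2 : (L2 σ A).card + (L1 σ B).card ≤ (L2 σ (rs A B)).card + 3 := by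
    have h3 := hQ (L2 σ A) (L1 σ B) ⟨z2A, z1B, by
      intro i hi hi'
      obtain ⟨y, hy, hyi⟩ := exists_L1 h2 hi'
      have h4 : i = QuotientAddGroup.mk (-y) := by
        rw [QuotientAddGroup.mk_neg, hyi, neg_neg]
      rw [h4, mk_mem_L2 h0 h2] at hi
      have := h.uniq (-y) hi.1 (by rwa [neg_neg])
      rw [h4, this]; rfl⟩
    have h4 : rs (L2 σ A) (L1 σ B) ⊆ L2 σ (rs A B) := by
      intro z hz
      rw [mem_rs] at hz
      obtain ⟨i, hi, j, hj, hij, rfl⟩ := hz
      exact sum21 h0 h2 hi hj hij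
    have := card_le_card h4
    omega
  have e1 := card_eq_L1_add_L2 h0 h2 A
  have e2 := card_eq_L1_add_L2 h0 h2 B
  have e3 := card_eq_L1_add_L2 h0 h2 (rs A B)
  omega

end S12

theorem stmt_S1 (hS : Stmt_Scherk.{u}) : Stmt_S1.{u} := by
  intro G _ _ _ A B σ h0 h2 hQ h hσ
  rcases hσ with hσ | hσ
  · exact S12.s1_aux hS h0 h2 hQ h hσ
  · have := S12.s1_aux hS h0 h2 hQ h.symm hσ
    rw [rs_comm] at this
    omega

theorem stmt_S2a (hS : Stmt_Scherk.{u}) : Stmt_S2a.{u} := by
  intro G _ _ _ A B σ h0 h2 hQ h hσ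
  classical
  rw [restrictedScherk_iff] at hQ
  have hσA : σ ∉ A := fun ha => hσ (by simpa using add_mem_add ha h.zB)
  have hσB : σ ∉ B := fun hb => hσ (by simpa using add_mem_add h.zA hb)
  have z1A : (0 : G ⧸ AddSubgroup.zmultiples σ) ∈ L1 σ A := S12.mk_L1 h.zA
  have z1B : (0 : G ⧸ AddSubgroup.zmultiples σ) ∈ L1 σ B := S12.mk_L1 h.zB
  have z2A : (0 : G ⧸ AddSubgroup.zmultiples σ) ∉ L2 σ A := by
    rw [← S12.mk_zero_eq (σ := σ), mk_mem_L2 h0 h2, zero_add]
    exact fun hb => hσA hb.2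
  have z2B : (0 : G ⧸ AddSubgroup.zmultiples σ) ∉ L2 σ B := by
    rw [← S12.mk_zero_eq (σ := σ), mk_mem_L2 h0 h2, zero_add]
    exact fun hb => hσB hb.2
  have huniq : ∀ i ∈ L1 σ A, -i ∈ L1 σ B → i = 0 := by
    intro i hi hi'
    obtain ⟨x, hx, rfl⟩ := S12.exists_L1 h2 hi
    obtain ⟨y, hy, hyi⟩ := S12.exists_L1 h2 hi'
    have h3 : (QuotientAddGroup.mk (x + y) : G ⧸ AddSubgroup.zmultiples σ) = 0 := by
      rw [QuotientAddGroup.mk_add, hyi, add_neg_cancel]
    rw [QuotientAddGroup.eq_zero_iff, mem_zm h2] at h3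
    rcases h3 with h3 | h3
    · have : x = 0 := h.uniq x hx (by rwa [neg_eq_of_add_eq_zero_right h3])
      rw [this]; rfl
    · exact absurd (h3 ▸ add_mem_add hx hy) hσ
  have c1 : (L1 σ A).card + (L1 σ B).card ≤ (L1 σ (rs A B)).card + 3 := by
    have h3 := hQ (L1 σ A) (L1 σ B) ⟨z1A, z1B, huniq⟩
    have h4 : rs (L1 σ A) (L1 σ B) ⊆ L1 σ (rs A B) := by
      intro z hz
      rw [mem_rs] at hz
      obtain ⟨i, hi, j, hj, hij, rfl⟩ := hz
      exact S12.sum11 h2 hi hj hij
    have := card_le_card h4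
    omega
  have e1 := card_eq_L1_add_L2 h0 h2 A
  have e2 := card_eq_L1_add_L2 h0 h2 B
  have e3 := card_eq_L1_add_L2 h0 h2 (rs A B)
  have sub1 : insert 0 (L2 σ A) ⊆ L1 σ A := by
    intro i hi
    rw [mem_insert] at hi
    rcases hi with rfl | hi
    · exact z1A
    · exact L2_subset_L1 hi
  have sub2 : insert 0 (L2 σ B) ⊆ L1 σ B := by
    intro i hi
    rw [mem_insert] at hi
    rcases hi with rfl | hi
    · exact z1B
    · exact L2_subset_L1 hi
  -- sums of the sets of level two, enlarged by 0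
  have base : ∀ i ∈ insert 0 (L2 σ A), ∀ j ∈ insert 0 (L2 σ B), i ≠ j →
      i + j ∈ L2 σ (rs A B) := by
    intro i hi j hj hij
    rw [mem_insert] at hi hj
    rcases hi with rfl | hi
    · rcases hj with rfl | hj
      · exact absurd rfl hij
      · exact S12.sum12 h0 h2 z1A hj hij
    · rcases hj with rfl | hj
      · exact S12.sum21 h0 h2 hi z1B hij
      · exact S12.sum21 h0 h2 hi (L2_subset_L1 hj) hij
  by_cases hcase : ∃ t ∈ L1 σ A + L1 σ B, t ≠ 0 ∧ t ∉ L1 σ (rs A B)
  · obtain ⟨t, ht, ht0, htC⟩ := hcase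
    rw [mem_add] at ht
    obtain ⟨i, hi, j, hj, rfl⟩ := ht
    have hij : i = j := by
      by_contra hij
      exact htC (S12.sum11 h2 hi hj hij)
    subst hij
    have hi0 : i ≠ 0 := by
      rintro rfl
      exact ht0 (add_zero 0)
    have niB : i ∉ L2 σ B := fun h' => htC (S12.sum12' h0 h2 hi h')
    have niA : i ∉ L2 σ A := fun h' => htC (by
      rw [rs_comm]
      exact S12.sum12' h0 h2 hj h')
    have h3 := hQ (insert i (insert 0 (L2 σ A))) (insert i (insert 0 (L2 σ B)))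
      ⟨mem_insert_of_mem (mem_insert_self _ _), mem_insert_of_mem (mem_insert_self _ _), by
        intro k hk hk'
        apply huniq
        · rw [mem_insert] at hk
          rcases hk with rfl | hk
          · exact hi
          · exact sub1 hk
        · rw [mem_insert] at hk'
          rcases hk' with hk' | hk'
          · rw [hk']; exact hj
          · exact sub2 hk'⟩
    have h4 : rs (insert i (insert 0 (L2 σ A))) (insert i (insert 0 (L2 σ B))) ⊆
        insert i (L2 σ (rs A B)) := by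
      intro z hz
      rw [mem_rs] at hz
      obtain ⟨k, hk, l, hl, hkl, rfl⟩ := hz
      rw [mem_insert] at hk hl
      rw [mem_insert]
      rcases hk with rfl | hk
      · rcases hl with rfl | hl
        · exact absurd rfl hkl
        · rw [mem_insert] at hl
          rcases hl with rfl | hl
          · left; exact add_zero _
          · right; exact S12.sum12 h0 h2 hi hl hkl
      · rcases hl with rfl | hl
        · rw [mem_insert] at hk
          rcases hk with rfl | hk
          · left; exact zero_add _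
          · right; exact S12.sum21 h0 h2 hk hj hkl
        · right; exact base k hk l hl hkl
    have h5 := card_le_card h4
    have h6 := card_insert_le i (L2 σ (rs A B))
    rw [card_insert_of_notMem (show i ∉ insert 0 (L2 σ A) by
        rw [mem_insert]; push Not; exact ⟨hi0, niA⟩), card_insert_of_notMem z2A,
      card_insert_of_notMem (show i ∉ insert 0 (L2 σ B) by
        rw [mem_insert]; push Not; exact ⟨hi0, niB⟩), card_insert_of_notMem z2B] at h3
    omega
  · push Not at hcase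
    have h3 := hQ (insert 0 (L2 σ A)) (insert 0 (L2 σ B))
      ⟨mem_insert_self _ _, mem_insert_self _ _, fun k hk hk' => huniq k (sub1 hk) (sub2 hk')⟩
    have h4 : rs (insert 0 (L2 σ A)) (insert 0 (L2 σ B)) ⊆ L2 σ (rs A B) := by
      intro z hz
      rw [mem_rs] at hz
      obtain ⟨k, hk, l, hl, hkl, rfl⟩ := hz
      exact base k hk l hl hkl
    have h5 := card_le_card h4
    rw [card_insert_of_notMem z2A, card_insert_of_notMem z2B] at h3
    have h6 := hS _ (L1 σ A) (L1 σ B) 0 0 z1A z1B (by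
      intro x hx y hy hxy
      rw [add_zero] at hxy
      apply huniq x hx
      rwa [neg_eq_of_add_eq_zero_right hxy])
    have h7 : L1 σ A + L1 σ B ⊆ insert 0 (L1 σ (rs A B)) := by
      intro t ht
      rw [mem_insert]
      by_cases ht0 : t = 0
      · exact Or.inl ht0
      · exact Or.inr (hcase t ht ht0)
    have h8 := card_le_card h7
    have h9 := card_insert_le 0 (L1 σ (rs A B))
    omega

end Pool.Agent.Work.MP_59976d_co
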