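import Pool.Agent.Work.MP_59976d_co_even.Interface
import Pool.Agent.Work.MP_59976d_co_odd.Basic
import Pool.Agent.Work.MP_59976d_co_odd.VO
import Pool.Agent.Work.MP_59976d_co_odd.UN

/-!
Arithmetic progressions in a coset of a cyclic subgroup, for block S8.
-/

namespace Pool.Agent.Work.MP_59976d_co

open Finset
open scoped Pointwise

universe u

namespace S8

variable {G : Type u} [AddCommGroup G] [DecidableEq G]

lemma isAP_neg {d : G} {A : Finset G} (h : IsAP d A) : IsAP (-d) A := by
  obtain ⟨a, ha⟩ := h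
  rcases Nat.eq_zero_or_pos A.card with h0 | h0
  · refine ⟨0, ?_⟩
    rw [h0]
    rw [card_eq_zero] at h0
    rw [h0]; simp
  · obtain ⟨n, hn⟩ : ∃ n, A.card = n + 1 := ⟨A.card - 1, by omega⟩
    apply isAP_of_string (-d) a n A hn
    rw [hn] at ha
    rw [ha]
    apply image_congr
    intro j _
    simp

lemma isAP_add {d : G} {X Y : Finset G} (hX : IsAP d X) (hY : IsAP d Y)
    (hc : (X + Y).card + 1 = X.card + Y.card) : IsAP d (X + Y) := by
  obtain ⟨x, hx⟩ := hX
  obtain ⟨y, hy⟩ := hY
  refine ⟨x + y, ?_⟩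
  apply eq_of_subset_of_card_le
  · intro z hz
    rw [mem_add] at hz
    obtain ⟨u, hu, v, hv, rfl⟩ := hz
    rw [hx, mem_image] at hu
    rw [hy, mem_image] at hv
    obtain ⟨i, hi, rfl⟩ := hu
    obtain ⟨j, hj, rfl⟩ := hv
    rw [mem_range] at hi hj
    rw [mem_image]
    refine ⟨i + j, mem_range.2 (by omega), ?_⟩
    rw [add_nsmul]; abel
  · refine card_image_le.trans ?_
    rw [card_range]

lemma ap_end {d : G} {S : Finset G} (hS : IsAP d S) {x y : G} (hx : x ∈ S) (hx' : x + d ∉ S)
    (hy : y ∈ S) (hy' : y + d ∉ S) : x = y := by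
  obtain ⟨s, hs⟩ := hS
  have key : ∀ z ∈ S, z + d ∉ S → z = s + (S.card - 1) • d := by
    intro z hz hz'
    have hz2 := hz
    rw [hs, mem_image] at hz2
    obtain ⟨i, hi, rfl⟩ := hz2
    rw [mem_range] at hi
    have : i = S.card - 1 := by
      by_contra hne
      apply hz'
      rw [hs, mem_image]
      refine ⟨i + 1, mem_range.2 (by omega), ?_⟩
      rw [succ_nsmul]; abel
    rw [this]
  rw [key x hx hx', key y hy hy']

lemma nsmul_inj {d : G} {i j : ℕ} (hi : i < addOrderOf d) (hj : j < addOrderOf d)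
    (h : i • d = j • d) : i = j :=
  nsmul_injOn_Iio_addOrderOf (Set.mem_Iio.2 hi) (Set.mem_Iio.2 hj) h

lemma ap_diff [Finite G] {d d' : G} {S : Finset G} (hd : IsAP d S) (hd' : IsAP d' S)
    (hmem : d' ∈ AddSubgroup.zmultiples d) (h2 : 2 ≤ S.card) (hn : S.card + 2 ≤ addOrderOf d) :
    d' = d ∨ d' = -d := by
  classical
  rw [mem_zmultiples_iff_mem_range_addOrderOf] at hmem
  rw [mem_image] at hmem
  obtain ⟨k, hk, rfl⟩ := hmem
  rw [mem_range] at hk
  set n := addOrderOf d with hnd
  have hk0 : k ≠ 0 := by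
    rintro rfl
    obtain ⟨s, hs⟩ := hd'
    have : S.card ≤ 1 := by
      rw [card_le_one]
      intro x hx y hy
      rw [hs] at hx hy
      obtain ⟨i, _, rfl⟩ := mem_image.1 hx
      obtain ⟨j, _, rfl⟩ := mem_image.1 hy
      simp
    omega
  by_cases hk1 : k = 1
  · left; rw [hk1, one_nsmul]
  by_cases hk2 : k + 1 = n
  · right
    have h3 : (k + 1) • d = 0 := by rw [hk2]; exact addOrderOf_nsmul_eq_zero d
    rw [succ_nsmul] at h3
    exact eq_neg_of_add_eq_zero_left h3
  exfalso
  obtain ⟨s, hs⟩ := hd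
  have hmemS : ∀ i, i < S.card → s + i • d ∈ S := by
    intro i hi
    rw [hs]
    exact mem_image.2 ⟨i, mem_range.2 hi, rfl⟩
  have hnot : ∀ i, S.card ≤ i → i < n → s + i • d ∉ S := by
    intro i hi hin h
    rw [hs, mem_image] at h
    obtain ⟨j, hj, h⟩ := h
    rw [mem_range] at hj
    have := nsmul_inj (d := d) (by omega) (by omega) (add_left_cancel h)
    omega
  have e1 : s + (S.card - k) • d = s + (S.card - k + 1) • d := by
    apply ap_end hd' (hmemS _ (by omega)) _ (hmemS _ (by omega))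
    · rw [add_assoc, ← add_nsmul]
      exact hnot _ (by omega) (by omega)
    · rw [add_assoc, ← add_nsmul]
      exact hnot _ (by omega) (by omega)
  have := nsmul_inj (d := d) (by omega) (by omega) (add_left_cancel e1)
  omega

lemma ap_zero {d : G} {X : Finset G} (hX : IsAP d X) (h0 : (0 : G) ∈ X) (hd : -d ∉ X) :
    X = (range X.card).image (fun i : ℕ => i • d) := by
  obtain ⟨a, ha⟩ := hX
  have h1 := h0
  rw [ha, mem_image] at h1
  obtain ⟨i, hi, hi0⟩ := h1
  rw [mem_range] at hi
  rcases Nat.eq_zero_or_pos i with rfl | hpos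
  · rw [zero_nsmul, add_zero] at hi0
    rw [hi0] at ha
    conv_lhs => rw [ha]
    apply image_congr
    intro j _
    simp
  · exfalso
    apply hd
    rw [ha, mem_image]
    refine ⟨i - 1, mem_range.2 (by omega), ?_⟩
    have : i • d = (i - 1) • d + d := by
      rw [← succ_nsmul]
      congr 1
      omega
    rw [this, ← add_assoc] at hi0
    exact eq_neg_of_add_eq_zero_left hi0

lemma ap_zero_or {d : G} {X : Finset G} (hX : IsAP d X) (h0 : (0 : G) ∈ X) (h2 : 2 ≤ X.card) :
    d ∈ X ∨ -d ∈ X := by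
  by_cases hd : -d ∈ X
  · exact Or.inr hd
  · left
    rw [ap_zero hX h0 hd, mem_image]
    exact ⟨1, mem_range.2 (by omega), one_nsmul d⟩

lemma zmultiples_ne_bot {d : G} (h : d ≠ 0) : AddSubgroup.zmultiples d ≠ ⊥ := by
  intro h'
  exact h (AddSubgroup.zmultiples_eq_bot.1 h')

/-- Theorem V for two sets in cosets of `N`, more than half full. -/
lemma ap_of_crit (hV : Stmt_V.{u}) [Finite G] (N : AddSubgroup G) (X Y : Finset G) (hS : SS X Y)
    (hX : InCoset N X) (hY : InCoset N Y) (hX2 : 2 ≤ X.card) (hY2 : 2 ≤ Y.card)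
    (hcrit : (X + Y).card + 1 = X.card + Y.card) (h1 : X.card + Y.card + 1 ≤ Nat.card N)
    (h2 : Nat.card N < 2 * (X.card + Y.card)) :
    ∃ d, IsAP d X ∧ IsAP d Y ∧ AddSubgroup.zmultiples d = N := by
  classical
  have half : ∀ H : AddSubgroup G, H ≤ N → X.card + Y.card ≤ Nat.card H → H = N := by
    intro H hHN hc
    apply AddSubgroup.eq_of_le_of_card_ge hHN
    obtain ⟨k, hk⟩ := AddSubgroup.card_dvd_of_le hHN
    rcases Nat.lt_or_ge k 2 with h | h
    · interval_cases k
      · rw [mul_zero] at hk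
        omega
      · omega
    · have : Nat.card H * 2 ≤ Nat.card H * k := Nat.mul_le_mul_left _ h
      omega
  rcases hV G X Y hS hX2 hY2 hcrit with ⟨d, hdX, hdY⟩ | ⟨H, hHX, hHY, hHc⟩
  · refine ⟨d, hdX, hdY, ?_⟩
    have hd0 : d ≠ 0 := by
      rintro rfl
      obtain ⟨s, hs⟩ := hdX
      have : X.card ≤ 1 := by
        rw [card_le_one]
        intro x hx y hy
        rw [hs] at hx hy
        obtain ⟨i, _, rfl⟩ := mem_image.1 hx
        obtain ⟨j, _, rfl⟩ := mem_image.1 hy
        simp
      omega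
    have hdN : d ∈ N := by
      obtain ⟨s, hs⟩ := hdX
      have m0 : s ∈ X := by
        rw [hs, mem_image]
        exact ⟨0, mem_range.2 (by omega), by simp⟩
      have m1 : s + d ∈ X := by
        rw [hs, mem_image]
        exact ⟨1, mem_range.2 (by omega), by simp⟩
      have := hX.sub_mem m0 m1
      simpa using this
    apply half
    · rw [AddSubgroup.zmultiples_le]
      exact hdN
    · obtain ⟨x, hx⟩ := card_pos.1 (show 0 < X.card by omega)
      obtain ⟨y, hy⟩ := card_pos.1 (show 0 < Y.card by omega)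
      apply VO.ss_card hS (zmultiples_ne_bot hd0)
      · refine ⟨QuotientAddGroup.mk x, fun a ha => ?_⟩
        rw [mk_eq_iff]
        exact hdX.sub_mem ha hx
      · refine ⟨QuotientAddGroup.mk y, fun a ha => ?_⟩
        rw [mk_eq_iff]
        exact hdY.sub_mem ha hy
  · exfalso
    have inter : ∀ Z : Finset G, Z.Nonempty → InCoset N Z → InCoset H Z → InCoset (H ⊓ N) Z := by
      rintro Z ⟨z, hz⟩ h3 h4
      refine ⟨QuotientAddGroup.mk z, fun a ha => ?_⟩
      rw [mk_eq_iff]
      exact ⟨h4.sub_mem ha hz, h3.sub_mem ha hz⟩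
    have hX' := inter X (card_pos.1 (by omega)) hX hHX
    have hY' := inter Y (card_pos.1 (by omega)) hY hHY
    have h3 := VO.ss_card hS (VO.ne_bot_of_inCoset hX2 hX') hX' hY'
    have h4 : H ⊓ N = H := by
      apply AddSubgroup.eq_of_le_of_card_ge inf_le_left
      omega
    have h5 := half H (inf_eq_left.1 h4) (by omega)
    rw [h5] at hHc
    omega

end S8

end Pool.Agent.Work.MP_59976d_co
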